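import Pool.Agent.helper40.SU.SpecC

set_option autoImplicit false

open Finset

namespace Pool.Agent.SU

theorem SCL_mono (q N G G' : ℕ) (h : G ≤ G') (S : Finset ℕ) : QF q N G S ≤ QF q N G' S := by
  unfold QF
  apply Finset.sum_le_sum
  intro j _
  apply mul_le_mul_of_nonneg_left
  · apply Finset.sum_le_sum_of_subset_of_nonneg
    · intro g hg
      simp only [cop, mem_filter, mem_Icc] at hg ⊢
      exact ⟨⟨hg.1.1, le_trans hg.1.2 h⟩, hg.2⟩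
    · intro g _ _
      positivity
  · unfold wj
    positivity

theorem SCL_D {c₀ C₀ : ℝ} {q D₀ Γ K : ℕ} {S : Finset ℕ} (hF : Fam c₀ C₀ q D₀ Γ K S)
    (h8 : D₀ % 8 = 3) (hc : D₀.Coprime q) (hΓ : 1 ≤ Γ) (hK : 1 ≤ K) (D : ℕ) (hD : D ∈ S) :
    Squarefree D ∧ D ≡ D₀ [MOD 64 * q] ∧ D % 8 = 3 ∧ D.Coprime q ∧ 1 ≤ D := by
  have h1 : D ≡ D₀ [MOD 64 * q] := hF.cls D hD
  refine ⟨hF.sqf D hD, h1, ?_, ?_, ?_⟩
  · have h2 : D ≡ D₀ [MOD 8] := h1.of_dvd ⟨8 * q, by ring⟩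
    have h3 : D % 8 = D₀ % 8 := h2
    omega
  · have h2 : D ≡ D₀ [MOD q] := h1.of_dvd ⟨64, by ring⟩
    have h3 := h2.gcd_eq
    unfold Nat.Coprime at hc ⊢
    rw [h3, hc]
  · refine le_trans ?_ (hF.lo D hD)
    exact Nat.mul_pos hΓ (pow_pos hK 4)

theorem SCL_cD {c₀ C₀ : ℝ} {q D₀ Γ K : ℕ} {S : Finset ℕ} (hF : Fam c₀ C₀ q D₀ Γ K S)
    (hΓ : 1 ≤ Γ) (hK : 1 ≤ K) : c₀ / (4 * √(Γ : ℝ)) ≤ ∑ D ∈ S, cD D := by
  have hΓ' : (0 : ℝ) < Γ := by exact_mod_cast hΓ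
  have hK' : (0 : ℝ) < K := by exact_mod_cast hK
  have hs : 0 < √(Γ : ℝ) := Real.sqrt_pos.mpr hΓ'
  have h1 : ∀ D ∈ S, 1 / (4 * √(Γ : ℝ) * (K : ℝ) ^ 2) ≤ cD D := by
    intro D hD
    have hlo : 0 < D := lt_of_lt_of_le (Nat.mul_pos hΓ (pow_pos hK 4)) (hF.lo D hD)
    have hhi : (D : ℝ) ≤ 16 * Γ * (K : ℝ) ^ 4 := by exact_mod_cast hF.hi D hD
    unfold cD
    apply one_div_le_one_div_of_le
    · exact Real.sqrt_pos.mpr (by exact_mod_cast hlo)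
    · rw [Real.sqrt_le_left (by positivity)]
      refine le_trans hhi (le_of_eq ?_)
      rw [mul_pow, mul_pow, Real.sq_sqrt hΓ'.le]
      ring
  have h2 := Finset.card_nsmul_le_sum S cD _ h1
  rw [nsmul_eq_mul] at h2
  refine le_trans ?_ h2
  have h3 := hF.card_ge
  calc c₀ / (4 * √(Γ : ℝ)) = (c₀ * (K : ℝ) ^ 2) * (1 / (4 * √(Γ : ℝ) * (K : ℝ) ^ 2)) := by
        field_simp
    _ ≤ _ := by
        apply mul_le_mul_of_nonneg_right h3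
        positivity

theorem SCL_inv {c₀ C₀ : ℝ} {q D₀ Γ K : ℕ} {S : Finset ℕ} (hF : Fam c₀ C₀ q D₀ Γ K S)
    (hΓ : 1 ≤ Γ) (hK : 1 ≤ K) : ∑ D ∈ S, 1 / (D : ℝ) ≤ 1 / (K : ℝ) ^ 2 := by
  have hΓ' : (1 : ℝ) ≤ Γ := by exact_mod_cast hΓ
  have hK' : (0 : ℝ) < K := by exact_mod_cast hK
  have h1 : ∀ D ∈ S, 1 / (D : ℝ) ≤ 1 / (K : ℝ) ^ 4 := by
    intro D hD
    have hlo : (Γ : ℝ) * (K : ℝ) ^ 4 ≤ D := by exact_mod_cast hF.lo D hD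
    apply one_div_le_one_div_of_le (by positivity)
    refine le_trans ?_ hlo
    have : 0 < (K : ℝ) ^ 4 := by positivity
    nlinarith
  have h2 := Finset.sum_le_card_nsmul S (fun D : ℕ => 1 / (D : ℝ)) _ h1
  rw [nsmul_eq_mul] at h2
  refine le_trans h2 ?_
  have h3 : (S.card : ℝ) ≤ (K : ℝ) ^ 2 := by exact_mod_cast hF.card_le
  calc (S.card : ℝ) * (1 / (K : ℝ) ^ 4) ≤ (K : ℝ) ^ 2 * (1 / (K : ℝ) ^ 4) := by
        apply mul_le_mul_of_nonneg_right h3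
        positivity
    _ = _ := by
        field_simp

theorem SCL_I0 (K₀ K₁ Γ : ℕ) (A κ c : ℝ) (hκ : 0 < κ) (hc : 0 < c) :
    ∃ I₀ : ℕ, ∀ I ≥ I₀, K₀ ≤ 4 ^ I ∧ K₁ ≤ 4 ^ I ∧ 256 * (Γ : ℝ) ^ 2 ≤ κ * 4 ^ (24 * I) ∧
      A ≤ I * c ∧ 16 * Γ ≤ 4 ^ (12 * I) := by
  refine ⟨K₀ + K₁ + ⌈256 * (Γ : ℝ) ^ 2 / κ⌉₊ + ⌈A / c⌉₊ + 16 * Γ, fun I hI => ?_⟩
  have h0 : I < 4 ^ I := Nat.lt_pow_self (by norm_num)
  have h0' : (I : ℝ) ≤ 4 ^ I := by exact_mod_cast h0.le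
  refine ⟨by omega, by omega, ?_, ?_, ?_⟩
  · have h1 : 256 * (Γ : ℝ) ^ 2 / κ ≤ (I : ℝ) :=
      le_trans (Nat.le_ceil _) (by exact_mod_cast (by omega : ⌈256 * (Γ : ℝ) ^ 2 / κ⌉₊ ≤ I))
    have h2 : (4 : ℝ) ^ I ≤ 4 ^ (24 * I) := pow_le_pow_right₀ (by norm_num) (by omega)
    rw [div_le_iff₀ hκ] at h1
    nlinarith
  · have h1 : A / c ≤ (I : ℝ) :=
      le_trans (Nat.le_ceil _) (by exact_mod_cast (by omega : ⌈A / c⌉₊ ≤ I))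
    rwa [div_le_iff₀ hc] at h1
  · have h2 : 4 ^ I ≤ 4 ^ (12 * I) := Nat.pow_le_pow_right (by norm_num) (by omega)
    omega

theorem SCL_T (I₀ : ℕ) : ∃ T₀ : ℝ, ∀ T ≥ T₀, ∃ (x : ℝ) (I : ℕ), 1 ≤ x ∧ I₀ ≤ I ∧ (4 : ℝ) ^ I ≤ x ∧
    x < 4 ^ (I + 1) ∧ T ^ (1 / 5000 : ℝ) = x ^ 20 ∧ T ^ (1 / 10000 : ℝ) = x ^ 10 ∧
    T ^ (-(1 / 100000) : ℝ) = x⁻¹ ∧ x ^ 40 ≤ T ^ (1 / 2 : ℝ) := by
  have h4 : (1 : ℝ) ≤ (4 : ℝ) ^ I₀ := one_le_pow₀ (by norm_num)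
  refine ⟨((4 : ℝ) ^ I₀) ^ (100000 : ℝ), fun T hT => ?_⟩
  have h5 : (1 : ℝ) ≤ ((4 : ℝ) ^ I₀) ^ (100000 : ℝ) := Real.one_le_rpow h4 (by norm_num)
  have hT1 : 1 ≤ T := le_trans h5 hT
  have hT0 : 0 ≤ T := by linarith
  have hx0 : (4 : ℝ) ^ I₀ ≤ T ^ (1 / 100000 : ℝ) := by
    have h6 := Real.rpow_le_rpow (by linarith) hT (by norm_num : (0 : ℝ) ≤ 1 / 100000)
    rw [← Real.rpow_mul (by linarith)] at h6
    rwa [show (100000 : ℝ) * (1 / 100000) = 1 by norm_num, Real.rpow_one] at h6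
  have hx1 : 1 ≤ T ^ (1 / 100000 : ℝ) := le_trans h4 hx0
  refine ⟨T ^ (1 / 100000 : ℝ), Nat.log 4 ⌊T ^ (1 / 100000 : ℝ)⌋₊, hx1, ?_, ?_, ?_, ?_, ?_, ?_, ?_⟩
  · have h7 : 4 ^ I₀ ≤ ⌊T ^ (1 / 100000 : ℝ)⌋₊ := Nat.le_floor (by exact_mod_cast hx0)
    exact Nat.le_log_of_pow_le (by norm_num) h7
  · have h7 : ⌊T ^ (1 / 100000 : ℝ)⌋₊ ≠ 0 := by
      have := Nat.le_floor (show ((1 : ℕ) : ℝ) ≤ T ^ (1 / 100000 : ℝ) by exact_mod_cast hx1)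
      omega
    have h8 := Nat.pow_log_le_self 4 h7
    have h9 : ((4 ^ Nat.log 4 ⌊T ^ (1 / 100000 : ℝ)⌋₊ : ℕ) : ℝ) ≤ (⌊T ^ (1 / 100000 : ℝ)⌋₊ : ℝ) := by
      exact_mod_cast h8
    have h10 := Nat.floor_le (by linarith : 0 ≤ T ^ (1 / 100000 : ℝ))
    push_cast at h9
    linarith
  · have h8 := Nat.lt_pow_succ_log_self (by norm_num : 1 < 4) ⌊T ^ (1 / 100000 : ℝ)⌋₊
    have h9 : (⌊T ^ (1 / 100000 : ℝ)⌋₊ : ℝ) + 1 ≤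
        ((4 ^ (Nat.log 4 ⌊T ^ (1 / 100000 : ℝ)⌋₊ + 1) : ℕ) : ℝ) := by
      exact_mod_cast h8
    have h10 := Nat.lt_floor_add_one (T ^ (1 / 100000 : ℝ))
    push_cast at h9
    linarith
  · rw [← Real.rpow_mul_natCast hT0]
    norm_num
  · rw [← Real.rpow_mul_natCast hT0]
    norm_num
  · rw [Real.rpow_neg hT0]
  · rw [← Real.rpow_mul_natCast hT0]
    apply Real.rpow_le_rpow_of_exponent_le hT1
    norm_num

theorem SCL (hPRK : PRK_stmt) (hMNK : MNK_stmt) : SCL_stmt := by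
  intro c₀ C₀ η hc₀ hC₀ hη
  obtain ⟨Z₀, hZ₀⟩ := hPRK c₀ C₀ η hc₀ hC₀ hη
  refine ⟨Z₀, fun Z hZ q D₀ Γ P hq hSm h8 hcop hΓ hfam A κ hκ => ?_⟩
  obtain ⟨K₁, hK₁⟩ := hZ₀ Z hZ q D₀ Γ hSm h8 hcop hΓ
  obtain ⟨K₀, hK₀⟩ := hfam
  choose! F hF using hK₀
  have hΓ' : (1 : ℝ) ≤ Γ := by exact_mod_cast hΓ
  have hs : 0 < √(Γ : ℝ) := Real.sqrt_pos.mpr (by linarith)
  obtain ⟨I₀, hI₀⟩ := SCL_I0 K₀ K₁ Γ A κ (c₀ / (4 * √(Γ : ℝ))) hκ (by positivity)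
  obtain ⟨T₀, hT₀⟩ := SCL_T I₀
  refine ⟨T₀, fun T hT => ?_⟩
  obtain ⟨x, I, hx1, hI, hIx, hxI, hT20, hT10, hTi, hT40⟩ := hT₀ T hT
  obtain ⟨hi1, hi2, hi3, hi4, hi5⟩ := hI₀ I hI
  have h4I : ∀ i ∈ Ioc I (2 * I), 4 ^ I ≤ 4 ^ i ∧ 4 ^ i ≤ 4 ^ (2 * I) := by
    intro i hi
    rw [mem_Ioc] at hi
    exact ⟨Nat.pow_le_pow_right (by norm_num) hi.1.le, Nat.pow_le_pow_right (by norm_num) hi.2⟩
  have hFam : ∀ i ∈ Ioc I (2 * I), Fam c₀ C₀ q D₀ Γ (4 ^ i) (F (4 ^ i)) ∧ ∀ D ∈ F (4 ^ i), P D := by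
    intro i hi
    exact hF _ (le_trans hi1 (h4I i hi).1)
  have hpos : ∀ i : ℕ, 1 ≤ 4 ^ i := fun i => Nat.one_le_pow _ _ (by norm_num)
  have hlt : ∀ i j : ℕ, i < j → i ∈ Ioc I (2 * I) → j ∈ Ioc I (2 * I) →
      Disjoint (F (4 ^ i)) (F (4 ^ j)) := by
    intro i j hij hi hj
    rw [Finset.disjoint_left]
    intro D hDi hDj
    have h1 := (hFam i hi).1.hi D hDi
    have h2 := (hFam j hj).1.lo D hDj
    have h3 : 4 * 4 ^ i ≤ 4 ^ j := by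
      calc 4 * 4 ^ i = 4 ^ (i + 1) := by ring
        _ ≤ 4 ^ j := Nat.pow_le_pow_right (by norm_num) hij
    have h4 : (4 * 4 ^ i) ^ 4 ≤ (4 ^ j) ^ 4 := Nat.pow_le_pow_left h3 4
    have h5 : Γ * (4 * 4 ^ i) ^ 4 ≤ 16 * Γ * (4 ^ i) ^ 4 :=
      le_trans (Nat.mul_le_mul_left Γ h4) (le_trans h2 h1)
    have h6 : 0 < Γ * (4 ^ i) ^ 4 := Nat.mul_pos hΓ (pow_pos (hpos i) 4)
    have h7 : Γ * (4 * 4 ^ i) ^ 4 = 256 * (Γ * (4 ^ i) ^ 4) := by ring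
    have h8' : 16 * Γ * (4 ^ i) ^ 4 = 16 * (Γ * (4 ^ i) ^ 4) := by ring
    omega
  have hdisj : ∀ i ∈ Ioc I (2 * I), ∀ j ∈ Ioc I (2 * I), i ≠ j →
      Disjoint (F (4 ^ i)) (F (4 ^ j)) := by
    intro i hi j hj hij
    rcases lt_or_gt_of_ne hij with h | h
    · exact hlt i j h hi hj
    · exact (hlt j i h hj hi).symm
  have hDhi : ∀ i ∈ Ioc I (2 * I), ∀ D ∈ F (4 ^ i), D ≤ 16 * Γ * 4 ^ (8 * I) := by
    intro i hi D hD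
    refine le_trans ((hFam i hi).1.hi D hD) ?_
    have h1 : (4 ^ i) ^ 4 ≤ (4 ^ (2 * I)) ^ 4 := Nat.pow_le_pow_left (h4I i hi).2 4
    have h2 : (4 ^ (2 * I)) ^ 4 = 4 ^ (8 * I) := by rw [← pow_mul]; ring_nf
    rw [h2] at h1
    exact Nat.mul_le_mul_left _ h1
  have hIlt : (I : ℝ) ≤ 4 ^ I := by exact_mod_cast (Nat.lt_pow_self (by norm_num : 1 < 4) : I < 4 ^ I).le
  refine ⟨(Ioc I (2 * I)).biUnion (fun i => F (4 ^ i)), 4 ^ (40 * I), ?_, ?_, ?_, ?_, hpos _, ?_, ?_, ?_⟩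
  · intro D hD
    rw [mem_biUnion] at hD
    obtain ⟨i, hi, hD⟩ := hD
    obtain ⟨a1, a2, a3, a4, a5⟩ := SCL_D (hFam i hi).1 h8 hcop hΓ (hpos i) D hD
    refine ⟨(hFam i hi).2 D hD, a1, a2, a3, a4, a5, ?_⟩
    rw [hT20]
    have h1 : D ≤ 4 ^ (20 * I) := by
      refine le_trans (hDhi i hi D hD) ?_
      calc 16 * Γ * 4 ^ (8 * I) ≤ 4 ^ (12 * I) * 4 ^ (8 * I) := Nat.mul_le_mul_right _ hi5
        _ = 4 ^ (20 * I) := by rw [← pow_add]; ring_nf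
    calc (D : ℝ) ≤ ((4 ^ (20 * I) : ℕ) : ℝ) := by exact_mod_cast h1
      _ = ((4 : ℝ) ^ I) ^ 20 := by push_cast; rw [← pow_mul]; ring_nf
      _ ≤ x ^ 20 := pow_le_pow_left₀ (by positivity) hIx 20
  · rw [Finset.sum_biUnion (fun i hi j hj hij => hdisj i hi j hj hij)]
    have h1 := Finset.card_nsmul_le_sum (Ioc I (2 * I)) (fun i => ∑ D ∈ F (4 ^ i), cD D) _
      (fun i hi => SCL_cD (hFam i hi).1 hΓ (hpos i))
    rw [nsmul_eq_mul, Nat.card_Ioc, show 2 * I - I = I by omega] at h1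
    exact le_trans hi4 h1
  · rw [Finset.sum_biUnion (fun i hi j hj hij => hdisj i hi j hj hij), hTi]
    have h1 : ∀ i ∈ Ioc I (2 * I), ∑ D ∈ F (4 ^ i), 1 / (D : ℝ) ≤ 1 / ((4 : ℝ) ^ (I + 1)) ^ 2 := by
      intro i hi
      refine le_trans (SCL_inv (hFam i hi).1 hΓ (hpos i)) ?_
      rw [mem_Ioc] at hi
      apply one_div_le_one_div_of_le (by positivity)
      push_cast
      apply pow_le_pow_left₀ (by positivity)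
      exact pow_le_pow_right₀ (by norm_num) hi.1
    have h2 := Finset.sum_le_card_nsmul (Ioc I (2 * I)) _ _ h1
    rw [nsmul_eq_mul, Nat.card_Ioc, show 2 * I - I = I by omega] at h2
    refine le_trans h2 ?_
    have h3 : (0 : ℝ) < 4 ^ (I + 1) := by positivity
    have h4 : (I : ℝ) ≤ 4 ^ (I + 1) := le_trans hIlt (pow_le_pow_right₀ (by norm_num) (by omega))
    calc (I : ℝ) * (1 / ((4 : ℝ) ^ (I + 1)) ^ 2) ≤ 4 ^ (I + 1) * (1 / ((4 : ℝ) ^ (I + 1)) ^ 2) :=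
          mul_le_mul_of_nonneg_right h4 (by positivity)
      _ = (4 ^ (I + 1))⁻¹ := by field_simp
      _ ≤ x⁻¹ := inv_anti₀ (by linarith) hxI.le
  · rw [hT10]
    have h1 : ((Ioc I (2 * I)).biUnion (fun i => F (4 ^ i))).card ≤ I * 4 ^ (4 * I) := by
      refine le_trans Finset.card_biUnion_le ?_
      have h2 : ∀ i ∈ Ioc I (2 * I), (F (4 ^ i)).card ≤ 4 ^ (4 * I) := by
        intro i hi
        refine le_trans (hFam i hi).1.card_le ?_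
        have h3 : (4 ^ i) ^ 2 ≤ (4 ^ (2 * I)) ^ 2 := Nat.pow_le_pow_left (h4I i hi).2 2
        have h4 : (4 ^ (2 * I)) ^ 2 = 4 ^ (4 * I) := by rw [← pow_mul]; ring_nf
        omega
      have h3 := Finset.sum_le_card_nsmul (Ioc I (2 * I)) _ _ h2
      rw [smul_eq_mul, Nat.card_Ioc, show 2 * I - I = I by omega] at h3
      exact h3
    calc (((Ioc I (2 * I)).biUnion (fun i => F (4 ^ i))).card : ℝ) ≤ ((I * 4 ^ (4 * I) : ℕ) : ℝ) := by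
          exact_mod_cast h1
      _ = (I : ℝ) * 4 ^ (4 * I) := by push_cast; ring
      _ ≤ (4 : ℝ) ^ I * 4 ^ (4 * I) := mul_le_mul_of_nonneg_right hIlt (by positivity)
      _ = ((4 : ℝ) ^ I) ^ 5 := by rw [← pow_add, ← pow_mul]; ring_nf
      _ ≤ x ^ 5 := pow_le_pow_left₀ (by positivity) hIx 5
      _ ≤ x ^ 10 := pow_le_pow_right₀ hx1 (by norm_num)
  · refine le_trans ?_ hT40
    calc ((4 ^ (40 * I) : ℕ) : ℝ) = ((4 : ℝ) ^ I) ^ 40 := by push_cast; rw [← pow_mul]; ring_nf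
      _ ≤ x ^ 40 := pow_le_pow_left₀ (by positivity) hIx 40
  · intro D hD D' hD'
    rw [mem_biUnion] at hD hD'
    obtain ⟨i, hi, hD⟩ := hD
    obtain ⟨j, hj, hD'⟩ := hD'
    have h1 : (D : ℝ) ≤ 16 * Γ * 4 ^ (8 * I) := by exact_mod_cast hDhi i hi D hD
    have h2 : (D' : ℝ) ≤ 16 * Γ * 4 ^ (8 * I) := by exact_mod_cast hDhi j hj D' hD'
    calc (D : ℝ) * D' ≤ (16 * Γ * 4 ^ (8 * I)) * (16 * Γ * 4 ^ (8 * I)) :=
          mul_le_mul h1 h2 (by positivity) (by positivity)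
      _ = (256 * (Γ : ℝ) ^ 2) * 4 ^ (16 * I) := by
          rw [show 16 * I = 8 * I + 8 * I by ring, pow_add]; ring
      _ ≤ (κ * 4 ^ (24 * I)) * 4 ^ (16 * I) := mul_le_mul_of_nonneg_right hi3 (by positivity)
      _ = κ * ((4 ^ (40 * I) : ℕ) : ℝ) := by
          push_cast
          rw [show 40 * I = 24 * I + 16 * I by ring, pow_add]; ring
  · intro N hN
    apply hMNK q N (4 ^ (40 * I)) η (Ioc I (2 * I)) (fun i => F (4 ^ i)) hη.le hN (hpos _) hdisj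
    · intro i hi D hD
      exact (SCL_D (hFam i hi).1 h8 hcop hΓ (hpos i) D hD).2.2.2.2
    · intro i hi
      refine le_trans (SCL_mono q N _ ((4 ^ i) ^ 41) ?_ _)
        (hK₁ (4 ^ i) (le_trans hi2 (h4I i hi).1) _ (hFam i hi).1 N hN)
      rw [mem_Ioc] at hi
      rw [← pow_mul]
      exact Nat.pow_le_pow_right (by norm_num) (by omega)

end Pool.Agent.SU
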