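import Pool.Agent.helper40.SU.SpecT

set_option autoImplicit false

open Finset Matrix

namespace Pool.Agent.SU

theorem TRD_inv (A U : Matrix (Fin 3) (Fin 3) ℤ) (hA : TF A) (hU : U.det = 1) :
    TF (Uᵀ * A * U) := by
  obtain ⟨h1, h2, h3⟩ := hA
  refine ⟨?_, ?_, ?_⟩
  · rw [Matrix.transpose_mul, Matrix.transpose_mul, Matrix.transpose_transpose, h1,
      Matrix.mul_assoc]
  · rw [Matrix.det_mul, Matrix.det_mul, Matrix.det_transpose, h2, hU]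
    norm_num
  · intro x hx
    have hUx : U *ᵥ x ≠ 0 := by
      intro h
      apply hx
      have h4 : U.adjugate *ᵥ (U *ᵥ x) = x := by
        rw [Matrix.mulVec_mulVec, Matrix.adjugate_mul, hU, one_smul, Matrix.one_mulVec]
      rw [← h4, h, Matrix.mulVec_zero]
    have h5 := h3 _ hUx
    rw [← Matrix.mulVec_mulVec, ← Matrix.mulVec_mulVec, Matrix.dotProduct_mulVec,
      Matrix.vecMul_transpose]
    exact h5

theorem TRD_val (B : Matrix (Fin 3) (Fin 3) ℤ) (x : Fin 3 → ℤ) :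
    x ⬝ᵥ (B *ᵥ x) = x 0 * (B 0 0 * x 0 + B 0 1 * x 1 + B 0 2 * x 2) +
      x 1 * (B 1 0 * x 0 + B 1 1 * x 1 + B 1 2 * x 2) +
      x 2 * (B 2 0 * x 0 + B 2 1 * x 1 + B 2 2 * x 2) := by
  simp only [dotProduct, Matrix.mulVec, Fin.sum_univ_three]

theorem TRD_colM (B M : Matrix (Fin 3) (Fin 3) ℤ) (p r t : ℤ) (h0 : M 0 0 = t) (h1 : M 1 0 = p)
    (h2 : M 2 0 = r) : (Mᵀ * B * M) 0 0 =
      t * (B 0 0 * t + B 0 1 * p + B 0 2 * r) + p * (B 1 0 * t + B 1 1 * p + B 1 2 * r) +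
      r * (B 2 0 * t + B 2 1 * p + B 2 2 * r) := by
  simp only [Matrix.mul_apply, Fin.sum_univ_three, Matrix.transpose_apply, h0, h1, h2]
  ring

theorem TRD_col (B : Matrix (Fin 3) (Fin 3) ℤ) (p q r s t : ℤ) :
    ((!![t, -1, 0; p, 0, q; r, 0, s] : Matrix (Fin 3) (Fin 3) ℤ)ᵀ * B *
      (!![t, -1, 0; p, 0, q; r, 0, s] : Matrix (Fin 3) (Fin 3) ℤ)) 0 0 =
      t * (B 0 0 * t + B 0 1 * p + B 0 2 * r) + p * (B 1 0 * t + B 1 1 * p + B 1 2 * r) +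
      r * (B 2 0 * t + B 2 1 * p + B 2 2 * r) :=
  TRD_colM B _ p r t rfl rfl rfl

theorem TRD_det (p q r s t : ℤ) (h : p * s - q * r = 1) :
    (!![t, -1, 0; p, 0, q; r, 0, s] : Matrix (Fin 3) (Fin 3) ℤ).det = 1 := by
  rw [Matrix.det_fin_three]
  simp
  linarith

/-- nearest integer -/
theorem TRD_near (a c : ℤ) (ha : 0 < a) : ∃ t : ℤ, 4 * (c + t * a) ^ 2 ≤ a ^ 2 := by
  obtain ⟨t, h1, h2⟩ : ∃ t : ℤ, -a ≤ 2 * (c + t * a) ∧ 2 * (c + t * a) ≤ a := by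
    refine ⟨-((2 * c + a) / (2 * a)), ?_, ?_⟩
    · have h1 := Int.emod_add_mul_ediv (2 * c + a) (2 * a)
      have h2 := Int.emod_nonneg (2 * c + a) (show 2 * a ≠ 0 by omega)
      nlinarith
    · have h1 := Int.emod_add_mul_ediv (2 * c + a) (2 * a)
      have h2 := Int.emod_lt_of_pos (2 * c + a) (show 0 < 2 * a by omega)
      nlinarith
  refine ⟨t, ?_⟩
  nlinarith

theorem TRD_alg (a v D d : ℤ) (ha : 0 < a) (hv : 0 < v) (h1 : 3 * v ^ 2 ≤ 4 * a)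
    (h2 : a ≤ D) (h3 : a * D - d ^ 2 = v) (h4 : 4 * d ^ 2 ≤ a ^ 2) : a = 1 := by
  have h5 : 3 * a ^ 2 ≤ 4 * v := by nlinarith
  have h6 : 9 * a ^ 4 ≤ 16 * v ^ 2 := by nlinarith [sq_nonneg a, sq_nonneg v]
  have h7 : 27 * a ^ 4 ≤ 64 * a := by linarith
  by_contra hne
  have h8 : 2 ≤ a := by omega
  have h9 : 8 ≤ a ^ 3 := by nlinarith [sq_nonneg a, sq_nonneg (a - 2)]
  have h10 : 64 * a < 27 * a ^ 4 := by
    have : a ^ 4 = a ^ 3 * a := by ring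
    rw [this]
    nlinarith
  omega

theorem TRD_one (hTB1 : TB1_stmt) (B : Matrix (Fin 3) (Fin 3) ℤ) (hB : TF B)
    (hmin : ∀ V : Matrix (Fin 3) (Fin 3) ℤ, V.det = 1 → B 0 0 ≤ (Vᵀ * B * V) 0 0) :
    B 0 0 = 1 := by
  obtain ⟨h1, h2, h3⟩ := hB
  have e10 : B 1 0 = B 0 1 := by
    have := congrFun (congrFun h1 0) 1
    rwa [Matrix.transpose_apply] at this
  have e20 : B 2 0 = B 0 2 := by
    have := congrFun (congrFun h1 0) 2
    rwa [Matrix.transpose_apply] at this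
  have e21 : B 2 1 = B 1 2 := by
    have := congrFun (congrFun h1 1) 2
    rwa [Matrix.transpose_apply] at this
  rw [Matrix.det_fin_three, e10, e20, e21] at h2
  have ha : 0 < B 0 0 := by
    have h4 := h3 ![1, 0, 0] (by
      intro h
      have := congrFun h 0
      simp at this)
    rw [TRD_val] at h4
    simp at h4
    exact h4
  have hg : 0 < B 0 0 * B 1 1 - B 0 1 ^ 2 := by
    have h4 := h3 ![- B 0 1, B 0 0, 0] (by
      intro h
      have := congrFun h 1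
      simp at this
      omega)
    rw [TRD_val, e10, e20, e21] at h4
    simp at h4
    have h5 : 0 < B 0 0 * (B 0 0 * B 1 1 - B 0 1 ^ 2) := by nlinarith
    exact (mul_pos_iff_of_pos_left ha).mp h5
  have hd : (B 0 0 * B 1 1 - B 0 1 ^ 2) * (B 0 0 * B 2 2 - B 0 2 ^ 2) -
      (B 0 0 * B 1 2 - B 0 1 * B 0 2) ^ 2 = B 0 0 := by
    linear_combination (B 0 0) * h2
  obtain ⟨p, q, r, s, hdet, hv, hv3⟩ := hTB1 (B 0 0 * B 1 1 - B 0 1 ^ 2)
    (B 0 0 * B 1 2 - B 0 1 * B 0 2) (B 0 0 * B 2 2 - B 0 2 ^ 2) hg (by rw [hd]; exact ha)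
  rw [hd] at hv3
  obtain ⟨t, ht⟩ := TRD_near (B 0 0) (B 0 1 * p + B 0 2 * r) ha
  have hm := hmin _ (TRD_det p q r s t hdet)
  rw [TRD_col, e10, e20, e21] at hm
  exact TRD_alg (B 0 0) _ _ (B 0 1 * p + B 0 2 * r + t * B 0 0) ha hv hv3 hm (by ring) ht

theorem TRD (hTB1 : TB1_stmt) : TRD_stmt := by
  classical
  intro A hA
  have hpos : ∀ B : Matrix (Fin 3) (Fin 3) ℤ, TF B → 0 < B 0 0 := by
    intro B hB
    have h4 := hB.2.2 ![1, 0, 0] (by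
      intro h
      have := congrFun h 0
      simp at this)
    rw [TRD_val] at h4
    simp at h4
    exact h4
  have hex : ∃ n : ℕ, ∃ U : Matrix (Fin 3) (Fin 3) ℤ, U.det = 1 ∧ (Uᵀ * A * U) 0 0 = n := by
    refine ⟨(A 0 0).toNat, 1, Matrix.det_one, ?_⟩
    rw [Matrix.transpose_one, Matrix.one_mul, Matrix.mul_one]
    have := hpos A hA
    omega
  obtain ⟨U, hU, hUn⟩ := Nat.find_spec hex
  refine ⟨U, hU, TRD_one hTB1 _ (TRD_inv A U hA hU) ?_⟩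
  intro V hV
  have h1 : Vᵀ * (Uᵀ * A * U) * V = (U * V)ᵀ * A * (U * V) := by
    rw [Matrix.transpose_mul]
    simp only [Matrix.mul_assoc]
  have h2 : (U * V).det = 1 := by rw [Matrix.det_mul, hU, hV, one_mul]
  have h3 := hpos _ (TRD_inv A (U * V) hA h2)
  rw [h1, hUn]
  by_contra hc
  push Not at hc
  have h4 := Nat.find_min hex (m := (((U * V)ᵀ * A * (U * V)) 0 0).toNat) (by omega)
  exact h4 ⟨U * V, h2, by omega⟩

end Pool.Agent.SU
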